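import Pool.Agent.Lib.MP_6bc78b_nt.MS.P3.Iface

/-! Project MS, Part III, module SW: circle averages and the square integral commute. -/

set_option autoImplicit false

open Complex Filter Topology MeasureTheory Function Set

namespace Pool.Agent.Lib.MP_6bc78b_nt.MS.P3.H40

/-- the circle of radius 1/4 -/
def circ : Set ℂ := {x | ‖x‖ = 1 / 4}

theorem circ_mem (θ : ℝ) : (1 / 4 : ℂ) * Complex.exp (θ * I) ∈ circ := by
  show ‖(1 / 4 : ℂ) * Complex.exp (θ * I)‖ = 1 / 4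
  rw [norm_mul, Complex.norm_exp_ofReal_mul_I]
  norm_num

/-- clamping to `[-1/2, 1/2]` -/
noncomputable def cl (x : ℝ) : ℝ := max (-(1 / 2)) (min x (1 / 2))

theorem cl_cont : Continuous cl := by unfold cl; fun_prop

theorem cl_mem (x : ℝ) : -(1 / 2) ≤ cl x ∧ cl x ≤ 1 / 2 :=
  ⟨le_max_left _ _, max_le (by norm_num) (min_le_right _ _)⟩

theorem cl_eq {x : ℝ} (hx : x ∈ Set.uIcc (-(1 / 2) : ℝ) (1 / 2)) : cl x = x := by
  rw [Set.uIcc_of_le (by norm_num)] at hx
  unfold cl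
  rw [min_eq_left hx.2, max_eq_right hx.1]

theorem seg_eq (f : ℂ → ℂ) (γ : ℝ → ℂ) :
    ∫ x in (-(1 / 2) : ℝ)..(1 / 2), f (γ x) = ∫ x in (-(1 / 2) : ℝ)..(1 / 2), f (γ (cl x)) :=
  intervalIntegral.integral_congr fun x hx => by rw [cl_eq hx]

/-- swapping two interval integrals of a continuous function -/
theorem swap2 (F : ℝ → ℝ → ℂ) (hF : Continuous (uncurry F)) (a b c d : ℝ) (hab : a ≤ b)
    (hcd : c ≤ d) :
    ∫ x in a..b, ∫ y in c..d, F x y = ∫ y in c..d, ∫ x in a..b, F x y := by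
  simp only [intervalIntegral.integral_of_le hab, intervalIntegral.integral_of_le hcd]
  apply integral_integral_swap
  rw [Measure.prod_restrict]
  have h1 : IntegrableOn (uncurry F) (Icc a b ×ˢ Icc c d) (volume.prod volume) :=
    hF.continuousOn.integrableOn_compact (isCompact_Icc.prod isCompact_Icc)
  exact h1.mono_set (Set.prod_mono Ioc_subset_Icc_self Ioc_subset_Icc_self)

/-- a circle average is continuous in a parameter -/
theorem cav_cont {X : Type*} [TopologicalSpace X] [FirstCountableTopology X] (s : Set X)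
    (F : X → ℂ → ℂ) (hF : ContinuousOn (uncurry F) (s ×ˢ circ)) :
    ContinuousOn (fun x => cav (F x)) s := by
  rw [continuousOn_iff_continuous_domRestrict]
  unfold cav
  have h1 : Continuous (uncurry fun (x : s) (θ : ℝ) => F x (1 / 4 * Complex.exp (θ * I))) := by
    have h2 : Continuous fun p : s × ℝ => ((p.1 : X), (1 / 4 : ℂ) * Complex.exp (p.2 * I)) := by
      fun_prop
    exact hF.comp_continuous h2 fun p => ⟨p.1.2, circ_mem p.2⟩
  exact continuous_const.mul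
    (intervalIntegral.continuous_parametric_intervalIntegral_of_continuous' h1 _ _)

/-- a segment integral is continuous in a parameter -/
theorem seg_cont {X : Type*} [TopologicalSpace X] [FirstCountableTopology X] (s : Set X)
    (F : X → ℂ → ℂ) (K : Set ℂ) (hF : ContinuousOn (uncurry F) (s ×ˢ K)) (γ : ℝ → ℂ)
    (hγ : Continuous γ) (hK : ∀ x, γ x ∈ K) (a b : ℝ) :
    ContinuousOn (fun x => ∫ t in a..b, F x (γ t)) s := by
  rw [continuousOn_iff_continuous_domRestrict]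
  have h1 : Continuous (uncurry fun (x : s) (t : ℝ) => F x (γ t)) := by
    have h2 : Continuous fun p : s × ℝ => ((p.1 : X), γ p.2) := by fun_prop
    exact hF.comp_continuous h2 fun p => ⟨p.1.2, hK p.2⟩
  exact intervalIntegral.continuous_parametric_intervalIntegral_of_continuous' h1 _ _

/-- the four sides, clamped -/
noncomputable def g1 (x : ℝ) : ℂ := cl x - I / 2
noncomputable def g2 (x : ℝ) : ℂ := cl x + I / 2
noncomputable def g3 (y : ℝ) : ℂ := 1 / 2 + cl y * I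
noncomputable def g4 (y : ℝ) : ℂ := -(1 / 2) + cl y * I

theorem g1_cont : Continuous g1 := by
  unfold g1; have := cl_cont; fun_prop
theorem g2_cont : Continuous g2 := by
  unfold g2; have := cl_cont; fun_prop
theorem g3_cont : Continuous g3 := by
  unfold g3; have := cl_cont; fun_prop
theorem g4_cont : Continuous g4 := by
  unfold g4; have := cl_cont; fun_prop

theorem g1_mem (x : ℝ) : g1 x ∈ sqB := by
  have h := cl_mem x
  have h1 : (g1 x).re = cl x := by simp [g1]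
  have h2 : (g1 x).im = -(1 / 2) := by simp [g1]
  show |(g1 x).re| ≤ 1 / 2 ∧ |(g1 x).im| ≤ 1 / 2 ∧ (|(g1 x).re| = 1 / 2 ∨ |(g1 x).im| = 1 / 2)
  rw [h1, h2]
  refine ⟨abs_le.2 h, ?_, Or.inr ?_⟩ <;> norm_num

theorem g2_mem (x : ℝ) : g2 x ∈ sqB := by
  have h := cl_mem x
  have h1 : (g2 x).re = cl x := by simp [g2]
  have h2 : (g2 x).im = 1 / 2 := by simp [g2]
  show |(g2 x).re| ≤ 1 / 2 ∧ |(g2 x).im| ≤ 1 / 2 ∧ (|(g2 x).re| = 1 / 2 ∨ |(g2 x).im| = 1 / 2)
  rw [h1, h2]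
  refine ⟨abs_le.2 h, ?_, Or.inr ?_⟩ <;> norm_num

theorem g3_mem (x : ℝ) : g3 x ∈ sqB := by
  have h := cl_mem x
  have h1 : (g3 x).re = 1 / 2 := by simp [g3]
  have h2 : (g3 x).im = cl x := by simp [g3]
  show |(g3 x).re| ≤ 1 / 2 ∧ |(g3 x).im| ≤ 1 / 2 ∧ (|(g3 x).re| = 1 / 2 ∨ |(g3 x).im| = 1 / 2)
  rw [h1, h2]
  refine ⟨?_, abs_le.2 h, Or.inl ?_⟩ <;> norm_num

theorem g4_mem (x : ℝ) : g4 x ∈ sqB := by
  have h := cl_mem x
  have h1 : (g4 x).re = -(1 / 2) := by simp [g4]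
  have h2 : (g4 x).im = cl x := by simp [g4]
  show |(g4 x).re| ≤ 1 / 2 ∧ |(g4 x).im| ≤ 1 / 2 ∧ (|(g4 x).re| = 1 / 2 ∨ |(g4 x).im| = 1 / 2)
  rw [h1, h2]
  refine ⟨?_, abs_le.2 h, Or.inl ?_⟩ <;> norm_num

theorem sqI_eq (f : ℂ → ℂ) : sqI f =
    (∫ x in (-(1 / 2) : ℝ)..(1 / 2), f (g1 x)) - (∫ x in (-(1 / 2) : ℝ)..(1 / 2), f (g2 x))
    + I * (∫ y in (-(1 / 2) : ℝ)..(1 / 2), f (g3 y))
    - I * (∫ y in (-(1 / 2) : ℝ)..(1 / 2), f (g4 y)) := by
  unfold sqI
  rw [seg_eq f fun x => x - I / 2, seg_eq f fun x => x + I / 2,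
    seg_eq f fun y => 1 / 2 + y * I, seg_eq f fun y => -(1 / 2) + y * I]
  rfl

theorem sqI_const_mul (c : ℂ) (f : ℂ → ℂ) : c * sqI f = sqI fun Z => c * f Z := by
  unfold sqI
  simp only [intervalIntegral.integral_const_mul]
  ring

/-- the circle average and one side commute -/
theorem swap_seg (F : ℂ → ℂ → ℂ) (hF : ContinuousOn (uncurry F) (circ ×ˢ sqB)) (γ : ℝ → ℂ)
    (hγ : Continuous γ) (hK : ∀ x, γ x ∈ sqB) :
    cav (fun a => ∫ x in (-(1 / 2) : ℝ)..(1 / 2), F a (γ x)) =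
      ∫ x in (-(1 / 2) : ℝ)..(1 / 2), cav (fun a => F a (γ x)) := by
  unfold cav
  rw [intervalIntegral.integral_const_mul]
  congr 1
  apply swap2 (fun (θ : ℝ) (x : ℝ) => F (1 / 4 * Complex.exp (θ * I)) (γ x))
  · have h2 : Continuous fun p : ℝ × ℝ => ((1 / 4 : ℂ) * Complex.exp (p.1 * I), γ p.2) := by
      fun_prop
    exact hF.comp_continuous h2 fun p => ⟨circ_mem p.1, hK p.2⟩
  · positivity
  · norm_num

theorem circ_int {f : ℂ → ℂ} (hf : ContinuousOn f circ) :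
    IntervalIntegrable (fun θ : ℝ => f (1 / 4 * Complex.exp (θ * I))) volume 0 (2 * Real.pi) := by
  apply Continuous.intervalIntegrable
  have h2 : Continuous fun θ : ℝ => (1 / 4 : ℂ) * Complex.exp (θ * I) := by fun_prop
  exact hf.comp_continuous h2 circ_mem

theorem cav_lin {s1 s2 s3 s4 : ℂ → ℂ} (h1 : ContinuousOn s1 circ) (h2 : ContinuousOn s2 circ)
    (h3 : ContinuousOn s3 circ) (h4 : ContinuousOn s4 circ) :
    cav (fun a => s1 a - s2 a + I * s3 a - I * s4 a) = cav s1 - cav s2 + I * cav s3 - I * cav s4 := by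
  unfold cav
  have e1 := circ_int h1
  have e2 := circ_int h2
  have e3 := (circ_int h3).const_mul I
  have e4 := (circ_int h4).const_mul I
  rw [intervalIntegral.integral_sub ((e1.sub e2).add e3) e4,
    intervalIntegral.integral_add (e1.sub e2) e3, intervalIntegral.integral_sub e1 e2,
    intervalIntegral.integral_const_mul, intervalIntegral.integral_const_mul]
  ring

/-- the circle average and the square integral commute -/
theorem swap_sq (F : ℂ → ℂ → ℂ) (hF : ContinuousOn (uncurry F) (circ ×ˢ sqB)) :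
    cav (fun a => sqI (F a)) = sqI (fun Z => cav (fun a => F a Z)) := by
  rw [sqI_eq]
  simp only [sqI_eq]
  rw [cav_lin (seg_cont circ F sqB hF g1 g1_cont g1_mem _ _)
    (seg_cont circ F sqB hF g2 g2_cont g2_mem _ _) (seg_cont circ F sqB hF g3 g3_cont g3_mem _ _)
    (seg_cont circ F sqB hF g4 g4_cont g4_mem _ _), swap_seg F hF g1 g1_cont g1_mem,
    swap_seg F hF g2 g2_cont g2_mem, swap_seg F hF g3 g3_cont g3_mem,
    swap_seg F hF g4 g4_cont g4_mem]

theorem circ_ne {x : ℂ} (hx : x ∈ circ) : x ≠ 0 := by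
  rintro rfl
  have : ‖(0 : ℂ)‖ = 1 / 4 := hx
  norm_num at this

/-- the weight is continuous on the torus -/
theorem wA_cont (e : Fin 3 → ℕ) : ContinuousOn (wA e) {A | ∀ i, A i ∈ circ} := by
  unfold wA
  refine continuousOn_finsetProd _ fun i _ => ?_
  refine ContinuousOn.inv₀ (by fun_prop) fun A hA => ?_
  exact pow_ne_zero _ (circ_ne (hA i))

theorem sw : SwStatement := by
  intro g hg e
  set G : ℂ → (Fin 3 → ℂ) → ℂ := fun Z A => wA e A * g Z A with hG
  have h0 : ∀ A, wA e A * (sqI fun Z => g Z A) = sqI fun Z => G Z A := fun A =>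
    sqI_const_mul _ _
  simp only [h0]
  have hGc : ContinuousOn (fun p : ℂ × (Fin 3 → ℂ) => G p.1 p.2)
      (sqB ×ˢ {A | ∀ i, A i ∈ circ}) := by
    refine ContinuousOn.mul ?_ ?_
    · exact (wA_cont e).comp continuousOn_snd fun p hp => hp.2
    · refine hg.mono (Set.prod_mono subset_rfl fun A hA i => ?_)
      exact le_of_eq (hA i)
  -- the function of four variables
  have hmem : ∀ x ∈ circ, ∀ y ∈ circ, ∀ z ∈ circ, (![x, y, z] : Fin 3 → ℂ) ∈
      {A : Fin 3 → ℂ | ∀ i, A i ∈ circ} := by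
    intro x hx y hy z hz i
    fin_cases i
    · exact hx
    · exact hy
    · exact hz
  have hvec : Continuous fun q : ℂ × ℂ × ℂ => (![q.1, q.2.1, q.2.2] : Fin 3 → ℂ) := by
    refine continuous_pi fun i => ?_
    fin_cases i
    · exact continuous_fst
    · exact continuous_snd.fst
    · exact continuous_snd.snd
  -- continuity of `G Z ![x, y, z]` jointly
  have H4 : ContinuousOn (fun q : ℂ × ℂ × ℂ × ℂ => G q.2.2.2 ![q.1, q.2.1, q.2.2.1])
      (circ ×ˢ circ ×ˢ circ ×ˢ sqB) := by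
    refine hGc.comp (f := fun q : ℂ × ℂ × ℂ × ℂ =>
      (q.2.2.2, (![q.1, q.2.1, q.2.2.1] : Fin 3 → ℂ))) ?_ ?_
    · refine Continuous.continuousOn ?_
      refine continuous_snd.snd.snd.prodMk ?_
      exact hvec.comp (f := fun q : ℂ × ℂ × ℂ × ℂ => (q.1, q.2.1, q.2.2.1)) (by fun_prop)
    · rintro ⟨x, y, z, Z⟩ ⟨hx, hy, hz, hZ⟩
      exact ⟨hZ, hmem x hx y hy z hz⟩
  unfold av3
  -- innermost
  have s1 : ∀ x ∈ circ, ∀ y ∈ circ, cav (fun z => sqI fun Z => G Z ![x, y, z]) =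
      sqI fun Z => cav fun z => G Z ![x, y, z] := by
    intro x hx y hy
    apply swap_sq fun z Z => G Z ![x, y, z]
    refine H4.comp (f := fun q : ℂ × ℂ => (x, y, q.1, q.2)) (by fun_prop) ?_
    rintro ⟨z, Z⟩ ⟨hz, hZ⟩
    exact ⟨hx, hy, hz, hZ⟩
  -- continuity of the innermost average in the other variables
  have H3 : ContinuousOn (fun q : ℂ × ℂ × ℂ => cav fun z => G q.2.2 ![q.1, q.2.1, z])
      (circ ×ˢ circ ×ˢ sqB) := by
    apply cav_cont (circ ×ˢ circ ×ˢ sqB) fun (q : ℂ × ℂ × ℂ) z => G q.2.2 ![q.1, q.2.1, z]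
    refine H4.comp (f := fun q : (ℂ × ℂ × ℂ) × ℂ => (q.1.1, q.1.2.1, q.2, q.1.2.2))
      (by fun_prop) ?_
    rintro ⟨⟨x, y, Z⟩, z⟩ ⟨⟨hx, hy, hZ⟩, hz⟩
    exact ⟨hx, hy, hz, hZ⟩
  have s2 : ∀ x ∈ circ, cav (fun y => sqI fun Z => cav fun z => G Z ![x, y, z]) =
      sqI fun Z => cav fun y => cav fun z => G Z ![x, y, z] := by
    intro x hx
    apply swap_sq fun y Z => cav fun z => G Z ![x, y, z]
    refine H3.comp (f := fun q : ℂ × ℂ => (x, q.1, q.2)) (by fun_prop) ?_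
    rintro ⟨y, Z⟩ ⟨hy, hZ⟩
    exact ⟨hx, hy, hZ⟩
  have H2 : ContinuousOn (fun q : ℂ × ℂ => cav fun y => cav fun z => G q.2 ![q.1, y, z])
      (circ ×ˢ sqB) := by
    apply cav_cont (circ ×ˢ sqB) fun (q : ℂ × ℂ) y => cav fun z => G q.2 ![q.1, y, z]
    refine H3.comp (f := fun q : (ℂ × ℂ) × ℂ => (q.1.1, q.2, q.1.2)) (by fun_prop) ?_
    rintro ⟨⟨x, Z⟩, y⟩ ⟨⟨hx, hZ⟩, hy⟩
    exact ⟨hx, hy, hZ⟩
  have s3 : cav (fun x => sqI fun Z => cav fun y => cav fun z => G Z ![x, y, z]) =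
      sqI fun Z => cav fun x => cav fun y => cav fun z => G Z ![x, y, z] :=
    swap_sq (fun x Z => cav fun y => cav fun z => G Z ![x, y, z]) H2
  rw [← s3]
  have ccongr : ∀ f f' : ℂ → ℂ, (∀ x ∈ circ, f x = f' x) → cav f = cav f' := by
    intro f f' h
    unfold cav
    congr 1
    exact intervalIntegral.integral_congr fun θ _ => h _ (circ_mem θ)
  refine ccongr _ _ fun x hx => ?_
  rw [← s2 x hx]
  exact ccongr _ _ fun y hy => s1 x hx y hy

end Pool.Agent.Lib.MP_6bc78b_nt.MS.P3.H40
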